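import Pool.Agent.R630.CAQ.Quat

set_option autoImplicit false

/-!
# MP_427463_al, Q1: profinite CA-groups with a generalized quaternion quotient exist

Let `Q` be the generalized quaternion group of order `2 ^ n`, `z` its involution, and
`χ : Q → {0, 2} ⊆ ℤ/4` the homomorphism with kernel the cyclic subgroup of index `2`
(the `a i`). In the wreath product of `ℤ_2` by `Q`, the pairs `(f, q)` with `f(z r) = - f(r)` for
all `r` and `∑ f(r)² ≡ χ(q)` modulo `4` form a closed subgroup `Γ`, and `Γ` maps onto `Q` with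
abelian kernel. A nontrivial element of `Q` has no nonzero fixed antisymmetric function, so
the centralizers are abelian unless there are `g = (v, z)`, `u = (w', u₀)`, `h = (w, h₀)` in `Γ`
with `u, h` commuting with `g` and `u₀² = h₀² = z`, `h₀ u₀ = z u₀ h₀`, `χ(h₀) = 2`. In that case
`2 w = v - h₀ v` and a computation modulo `4` shows that `4` divides `∑ w(r)²`, a contradiction.
-/

namespace Pool.Agent.Results.MP_427463_al.QuaternionQuotients

/-- For every `n ≥ 3` (in particular for every `n ≥ 4`) there is a profinite group `Γ` in which the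
centralizer of every nontrivial element is abelian (a CA-group), with an abelian closed (and open)
normal subgroup `N` such that `Γ / N` is the generalized quaternion group of order `2 ^ n`
(Mathlib's `QuaternionGroup m` has order `4 m`). -/
theorem result (n : ℕ) (_ : 3 ≤ n) :
    ∃ (Γ : Type) (_ : Group Γ) (_ : TopologicalSpace Γ) (_ : IsTopologicalGroup Γ)
      (_ : CompactSpace Γ) (_ : T2Space Γ) (_ : TotallyDisconnectedSpace Γ),
      (∀ g : Γ, g ≠ 1 → ∀ x y : Γ, x * g = g * x → y * g = g * y → x * y = y * x) ∧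
      ∃ (N : Subgroup Γ) (_ : N.Normal), IsClosed (N : Set Γ) ∧ IsOpen (N : Set Γ) ∧
        (∀ x ∈ N, ∀ y ∈ N, x * y = y * x) ∧
        Nonempty (Γ ⧸ N ≃* QuaternionGroup (2 ^ (n - 2))) ∧
        Nat.card (QuaternionGroup (2 ^ (n - 2))) = 2 ^ n := by
  obtain ⟨Γ, i1, i2, i3, i4, i5, i6, h, N, i7, h1, h2, h3, h4⟩ := Pool.Agent.R630.CAQ.final n
  refine ⟨Γ, i1, i2, i3, i4, i5, i6, h, N, i7, h1, h2, h3, h4, ?_⟩
  rw [Pool.Agent.R630.CAQ.card_quat]
  congr 1
  omega

end Pool.Agent.Results.MP_427463_al.QuaternionQuotients
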